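import Pool.Agent.K4H17.DX.Statement

/-! # The Dixmier property of tensor products of Poisson potential quotients

`Tensor Ω ξ` is the tensor product over `k` of the algebras `P_{Ω_i-ξ_i} = k[x,y,z]/(Ω_i - ξ_i)`,
`IsPoissonTensor Ω ξ B` says that `B` is the bracket of the tensor product of the Poisson algebras
`P_{Ω_i-ξ_i}`. -/

namespace Pool.Agent.Results.MP_d88b0b_al.DixmierProperty

open MvPolynomial K4H17.DX

universe u

/-- For homogeneous potentials `Ω_i` of degree at least four with isolated singularity over any
field, the bracket of the tensor product exists and is unique, and every injective Poisson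
endomorphism is bijective. -/
theorem result {k : Type u} [Field k] {d : ℕ} (Ω : Fin d → MvPolynomial (Fin 3) k)
    (ξ : Fin d → k) (e : Fin d → ℕ) (he : ∀ i, 4 ≤ e i)
    (hΩ : ∀ i, IsISPotential (Ω i) (e i)) :
    (∃! B, IsPoissonTensor Ω ξ B) ∧
      ∀ B, IsPoissonTensor Ω ξ B → IsDixmier k (Tensor Ω ξ) B :=
  main_statement he hΩ

end Pool.Agent.Results.MP_d88b0b_al.DixmierProperty
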